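import Pool.Agent.H33.CrossDefs

set_option autoImplicit false

namespace Pool.Agent.Results.MP_633f17_co.Q1

open Pool.Agent.H33.Cross

lemma key : ∀ A B : Finset (Fin 7), 2 ≤ (A ∩ B).card → (A ∪ B).card ≤ 7 - 4 → A.card = B.card →
    A = B := by
  intro A B h1 h2 h3
  have e := Finset.card_union_add_card_inter A B
  have a1 : (A ∩ B).card ≤ A.card := Finset.card_le_card Finset.inter_subset_left
  have a2 : A.card ≤ (A ∪ B).card := Finset.card_le_card Finset.subset_union_left
  have a3 : (A ∩ B).card = A.card := by omega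
  have b1 : A ∩ B = A := Finset.eq_of_subset_of_card_le Finset.inter_subset_left a3.ge
  have b2 : A ∩ B = B := Finset.eq_of_subset_of_card_le Finset.inter_subset_right (by omega)
  exact b1.symm.trans b2

lemma mm_le : mm 7 2 4 ≤ 2 := by
  refine csSup_le' ?_
  rintro k ⟨F, hF, rfl⟩
  have : F.card ≤ ({2, 3} : Finset ℕ).card := by
    refine Finset.card_le_card_of_injOn Finset.card (fun A hA => ?_) fun A hA B hB h => ?_
    · have := hF A hA A hA
      simp only [Finset.inter_self, Finset.union_self] at this
      simp only [Finset.coe_insert, Finset.coe_singleton, Set.mem_insert_iff, Set.mem_singleton_iff]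
      omega
    · exact key A B (hF A hA B hB).1 (hF A hA B hB).2 h
  simpa using this

theorem result : ∃ (t s n : ℕ) (F G : Finset (Finset (Fin n))), 0 < t ∧ 0 < s ∧ t + s ≤ n ∧
    IsCross n t s F G ∧ mm n t s ^ 2 < F.card * G.card := by
  refine ⟨2, 4, 7, {{0, 1}}, {{0, 1}, {0, 1, 2}, {0, 1, 3}, {0, 1, 4}, {0, 1, 5}, {0, 1, 6}},
    by norm_num, by norm_num, by norm_num, by unfold IsCross; decide +kernel, ?_⟩
  have h := Nat.pow_le_pow_left mm_le 2
  refine lt_of_le_of_lt h (by decide)

end Pool.Agent.Results.MP_633f17_co.Q1
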